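import Pool.Agent.X118.PP.A
import Pool.Agent.X118.PP.B
import Pool.Agent.X118.PP.C

set_option autoImplicit false

namespace Pool.Agent.Results.MP_596674_nt.PowersNotParry

open Polynomial Pool.Agent.X118.PP

theorem transport (d k : ℕ) (hd : 2 ≤ d) (β : ℝ) (z : ℂ) (hβ : β ^ d = β + 1)
    (hz : z ^ d = z + 1) (Q : ℤ[X]) (hQ : aeval (β ^ k) Q = 0) : aeval (z ^ k) Q = 0 := by
  have hirr : Irreducible (X ^ d - X - 1 : ℚ[X]) :=
    X_pow_sub_X_sub_one_irreducible_rat (by omega)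
  have hroot : aeval β (X ^ d - X - 1 : ℚ[X]) = 0 := by
    simp only [map_sub, map_pow, aeval_X, map_one]
    linarith
  have hzroot : aeval z (X ^ d - X - 1 : ℚ[X]) = 0 := by
    simp only [map_sub, map_pow, aeval_X, map_one]
    linear_combination hz
  have halg : IsIntegral ℚ β := by
    have h1 : IsAlgebraic ℚ β := ⟨_, hirr.ne_zero, hroot⟩
    exact h1.isIntegral
  have hdvd : (X ^ d - X - 1 : ℚ[X]) ∣ minpoly ℚ β :=
    (minpoly.irreducible halg).dvd_symm hirr (minpoly.dvd ℚ β hroot)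
  have h1 : aeval β ((Q.map (algebraMap ℤ ℚ)).comp (X ^ k)) = 0 := by
    rw [aeval_comp, map_pow, aeval_X, aeval_map_algebraMap, hQ]
  obtain ⟨q, hq⟩ := hdvd.trans (minpoly.dvd ℚ β h1)
  have h2 : aeval z ((Q.map (algebraMap ℤ ℚ)).comp (X ^ k)) = 0 := by
    rw [hq, map_mul, hzroot, zero_mul]
  rw [aeval_comp, map_pow, aeval_X, aeval_map_algebraMap] at h2
  exact h2

/-- **Main theorem.** Let `d ≥ 40` and let `β > 1` be the real root of `x^d - x - 1`. Then no power
`β^k`, `k ≥ 1`, is a Parry number. -/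
theorem result (d : ℕ) (hd : 40 ≤ d) (β : ℝ) (hβ1 : 1 < β) (hβ : β ^ d = β + 1) (k : ℕ)
    (hk : 1 ≤ k) : ¬ IsParry (β ^ k) := by
  intro hP
  obtain ⟨φ, r, hA1, hA2, hr, hre, him⟩ := exists_root d (by omega)
  obtain ⟨hrβ, hc, h2c⟩ := root_bounds d (by omega) β φ r hβ1 hβ hA1 hA2 hr hre him
  have hr0 : 0 < r := by linarith
  let w : ℂ := Complex.cos φ + Complex.sin φ * Complex.I
  let z : ℂ := r * w
  have hwpow : ∀ n : ℕ, w ^ n = (Real.cos (n * φ) : ℂ) + (Real.sin (n * φ) : ℂ) * Complex.I := by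
    intro n
    show (Complex.cos φ + Complex.sin φ * Complex.I) ^ n = _
    rw [Complex.cos_add_sin_mul_I_pow]
    push_cast
    rfl
  have hzpow : ∀ n : ℕ, z ^ n =
      ((r ^ n * Real.cos (n * φ) : ℝ) : ℂ) + ((r ^ n * Real.sin (n * φ) : ℝ) : ℂ) * Complex.I := by
    intro n
    show ((r : ℂ) * w) ^ n = _
    rw [mul_pow, hwpow]
    push_cast
    ring
  have hzd : z ^ d = z + 1 := by
    have h1 := hzpow 1
    rw [pow_one, pow_one, Nat.cast_one, one_mul] at h1
    rw [hzpow d, hre, him, h1]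
    push_cast
    ring
  set R : ℝ := r ^ k with hR
  have hR1 : 1 < R := one_lt_pow₀ hr (by omega)
  have hR0 : 0 < R := by linarith
  have hRB : R < β ^ k := pow_lt_pow_left₀ hrβ hr0.le (by omega)
  have hB1 : 1 < β ^ k := one_lt_pow₀ hβ1 (by omega)
  have hre' : (z ^ k).re = R * Real.cos (k * φ) := by
    rw [hzpow k]
    simp [-Complex.ofReal_mul, -Complex.ofReal_pow, hR]
  have him' : (z ^ k).im = R * Real.sin (k * φ) := by
    rw [hzpow k]
    simp [-Complex.ofReal_mul, -Complex.ofReal_pow, hR]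
  have hnsq : Complex.normSq (z ^ k) = R ^ 2 := by
    rw [Complex.normSq_apply, hre', him']
    have := Real.sin_sq_add_cos_sq (k * φ)
    linear_combination R ^ 2 * this
  have hnorm : ‖z ^ k‖ = R := by
    have h1 : ‖z ^ k‖ ^ 2 = R ^ 2 := by rw [← Complex.normSq_eq_norm_sq, hnsq]
    exact (pow_left_inj₀ (norm_nonneg _) hR0.le (by norm_num)).1 h1
  have hinv : ((z ^ k)⁻¹).re = Real.cos (k * φ) / R := by
    rw [Complex.inv_re, hnsq, hre']
    field_simp
  obtain ⟨C, -, hC⟩ := bounded_of_parry (β ^ k) hP (z ^ k)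
    (transport d k (by omega) β z hβ hzd)
  have hA := ineqA (β ^ k) hB1 (z ^ k) R (Real.cos (k * φ)) C hnorm hR1 hRB.le hinv
    (Real.cos_le_one _) hC
  have hne : ((β ^ k : ℝ) : ℂ) ≠ z ^ k := by
    intro h
    rw [← h, Complex.norm_real, Real.norm_eq_abs, abs_of_pos (by linarith)] at hnorm
    linarith
  have hB := ineqB (β ^ k) (z ^ k) R C hnorm hR1 hne hC
  exact numeric d k hd hk β φ r hr hrβ hA1 hA2 hc h2c hB hA

end Pool.Agent.Results.MP_596674_nt.PowersNotParry
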